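import Mathlib

/-!
# Complemented copies of `C(S)` in `C(K, X)`: definitions

Definitions used in the statement of `Pool.Agent.Results.MP_f27419_an.FiniteHeight.result`.
-/

set_option autoImplicit false

open Filter Topology

namespace Pool.Agent.H32OO

/-- The Banach space `c₀` of real null sequences. -/
abbrev c0 := ZeroAtInftyContinuousMap ℕ ℝ

/-- `c₀` is complemented in `C(K)`: there are bounded linear maps `J : c₀ → C(K)` and
`Q : C(K) → c₀` with `Q J = id`. -/
def CZeroComplementedIn (K : Type*) [TopologicalSpace K] [CompactSpace K] : Prop :=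
  ∃ (J : c0 →L[ℝ] C(K, ℝ)) (Q : C(K, ℝ) →L[ℝ] c0), Q.comp J = ContinuousLinearMap.id ℝ c0

/-- `c₀` embeds in `X`: there is a bounded linear map `T : c₀ → X` which is bounded below. -/
def CZeroEmbedsIn (X : Type*) [NormedAddCommGroup X] [NormedSpace ℝ X] : Prop :=
  ∃ (T : c0 →L[ℝ] X) (c : ℝ), 0 < c ∧ ∀ f : c0, c * ‖f‖ ≤ ‖T f‖

/-- The `n`-th sequential derived set of a space `S`: `seqDer S 0 = S`, and `s` belongs to
`seqDer S (n + 1)` if `s` is the limit of a sequence of points of `seqDer S n` that are different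
from `s`.  For metrizable `S` these are the usual (Cantor-Bendixson) derived sets. -/
def seqDer (S : Type*) [TopologicalSpace S] : ℕ → Set S
  | 0 => Set.univ
  | n + 1 => {s | ∃ γ : ℕ → S, (∀ k, γ k ∈ seqDer S n ∧ γ k ≠ s) ∧ Tendsto γ atTop (𝓝 s)}

end Pool.Agent.H32OO
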