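import Pool.Agent.H19.OmegaOmega
import Pool.Agent.H32OO.Defs

set_option autoImplicit false

open Filter Topology

namespace Pool.Agent.H32OO

open Pool.Agent.H19 (mu mu_apply norm_mu_le WUC WUC_of_disjoint key_inequality)

section Bumps

variable {S : Type*} [TopologicalSpace S] [CompactSpace S] [T2Space S]

theorem exists_bump (a s : S) (h : a ≠ s) :
    ∃ g : C(S, ℝ), (∀ t, 0 ≤ g t) ∧ (∀ t, g t ≤ 1) ∧ g a = 1 ∧ ∀ᶠ t in 𝓝 s, g t = 0 := by
  obtain ⟨A, B, hA, hB, haA, hsB, hAB⟩ := t2_separation h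
  obtain ⟨g, hg0, hg1, hg⟩ := exists_continuous_zero_one_of_isClosed (s := Aᶜ) (t := {a})
    hA.isClosed_compl isClosed_singleton (by
      rw [Set.disjoint_singleton_right]
      exact fun h => h haA)
  refine ⟨g, fun t => (hg t).1, fun t => (hg t).2, hg1 rfl, ?_⟩
  filter_upwards [hB.mem_nhds hsB] with t ht
  exact hg0 (fun htA => Set.disjoint_left.1 hAB htA ht)

/-- a sequence which converges to a different point has a subsequence with disjoint bump
functions -/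
theorem exists_disjoint_bumps (γ : ℕ → S) (s : S) (hne : ∀ k, γ k ≠ s)
    (hγ : Tendsto γ atTop (𝓝 s)) :
    ∃ (φ : ℕ → ℕ) (f : ℕ → C(S, ℝ)), StrictMono φ ∧ (∀ i t, 0 ≤ f i t) ∧ (∀ i t, f i t ≤ 1) ∧
      (∀ i, f i (γ (φ i)) = 1) ∧ ∀ i j t, i < j → f i t = 0 ∨ f j t = 0 := by
  choose g hg0 hg1 hga hgs using fun k => exists_bump (γ k) s (hne k)
  obtain ⟨φ, -, hφ⟩ := exists_seq_of_forall_finset_exists (fun _ : ℕ => True)
    (fun i j => i < j ∧ g i (γ j) = 0) (by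
      intro F _
      have h1 : ∀ᶠ j in atTop, ∀ i ∈ F, g i (γ j) = 0 :=
        (Filter.eventually_all_finset F).2 fun i _ => hγ.eventually (hgs i)
      have h2 : ∀ᶠ j in atTop, ∀ i ∈ F, i < j :=
        (Filter.eventually_all_finset F).2 fun i _ => eventually_gt_atTop i
      obtain ⟨j, hj1, hj2⟩ := (h1.and h2).exists
      exact ⟨j, trivial, fun i hi => ⟨hj2 i hi, hj1 i hi⟩⟩)
  let u : ℕ → C(S, ℝ) := fun k =>
    ⟨fun t => max 0 (2 * g (φ k) t - 1) * ∏ i ∈ Finset.range k, max 0 (1 - 2 * g (φ i) t), by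
      fun_prop⟩
  have hu : ∀ k t, u k t =
      max 0 (2 * g (φ k) t - 1) * ∏ i ∈ Finset.range k, max 0 (1 - 2 * g (φ i) t) :=
    fun _ _ => rfl
  refine ⟨φ, u, ?_, ?_, ?_, ?_, ?_⟩
  · exact strictMono_nat_of_lt_succ fun k => (hφ k (k + 1) (Nat.lt_succ_self k)).1
  · intro i t
    rw [hu]
    exact mul_nonneg (le_max_left _ _) (Finset.prod_nonneg fun i _ => le_max_left _ _)
  · intro i t
    rw [hu]
    refine mul_le_one₀ (max_le zero_le_one (by linarith [hg1 (φ i) t]))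
      (Finset.prod_nonneg fun i _ => le_max_left _ _)
      (Finset.prod_le_one (fun i _ => le_max_left _ _) fun j _ =>
        max_le zero_le_one (by linarith [hg0 (φ j) t]))
  · intro i
    rw [hu, hga]
    have h1 : ∏ j ∈ Finset.range i, max 0 (1 - 2 * g (φ j) (γ (φ i))) = 1 := by
      refine Finset.prod_eq_one fun j hj => ?_
      rw [(hφ j i (Finset.mem_range.1 hj)).2]
      norm_num
    rw [h1]
    norm_num
  · intro i j t hij
    rw [hu, hu]
    rcases le_or_gt (g (φ i) t) (1 / 2) with h | h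
    · left
      rw [max_eq_left (by linarith), zero_mul]
    · right
      have h2 : ∏ l ∈ Finset.range j, max 0 (1 - 2 * g (φ l) t) = 0 :=
        Finset.prod_eq_zero (i := i) (Finset.mem_range.2 hij) (max_eq_left (by linarith))
      rw [h2, mul_zero]

end Bumps

section Step

variable {K : Type*} [TopologicalSpace K] [CompactSpace K] [T2Space K]
variable {X : Type*} [NormedAddCommGroup X] [NormedSpace ℝ X] [CompleteSpace X]
variable {S : Type*} [TopologicalSpace S] [CompactSpace S] [T2Space S]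

theorem step (hK : ¬ CZeroComplementedIn K) (hX : ¬ CZeroEmbedsIn X)
    (J : C(S, ℝ) →L[ℝ] C(K, X)) (Q : C(K, X) →L[ℝ] C(S, ℝ))
    (hQJ : Q.comp J = ContinuousLinearMap.id ℝ _)
    (γ : ℕ → S) (s : S) (hne : ∀ k, γ k ≠ s) (hγ : Tendsto γ atTop (𝓝 s))
    {ε : ℝ} (hε : 0 < ε) :
    ∃ k, ‖mu Q s‖ + 1 / ‖J‖ - ε ≤ ‖mu Q (γ k)‖ := by
  obtain ⟨φ, f, hφ, hf0, hf1, hfγ, hfd⟩ := exists_disjoint_bumps γ s hne hγ
  have hQJ' : ∀ f, Q (J f) = f := fun f => by
    have := congrArg (fun T => T f) hQJ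
    simpa using this
  have hJ0 : J ≠ 0 := by
    rintro rfl
    have h1 := hQJ' (f 0)
    have h2 := congrArg (fun f : C(S, ℝ) => f (γ (φ 0))) h1
    simp only [zero_apply, map_zero, ContinuousMap.zero_apply, hfγ] at h2
    exact zero_ne_one h2
  have hJ : 0 < ‖J‖ := (norm_pos_iff (a := J)).2 hJ0
  have hW : WUC f 1 := WUC_of_disjoint _ hf0 hf1 hfd
  have hW' : ∀ t, WUC (fun k => J (f k) t) ‖J‖ := by
    intro t F c hc
    have h1 : ∑ i ∈ F, c i • J (f i) t = J (∑ i ∈ F, c i • f i) t := by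
      rw [map_sum, ContinuousMap.sum_apply]
      refine Finset.sum_congr rfl fun i _ => ?_
      rw [map_smul, ContinuousMap.smul_apply]
    rw [h1]
    refine ((J _).norm_coe_le_norm t).trans ((J.le_opNorm _).trans ?_)
    exact mul_le_of_le_one_right (norm_nonneg _) (hW F c hc)
  have h0 : ∀ t, Tendsto (fun k => J (f k) t) atTop (𝓝 0) := fun t =>
    (hW' t).tendsto_zero hX
  obtain ⟨k, hk⟩ := key_inequality hK (fun k => mu Q (γ (φ k))) (mu Q s) (R := ‖Q‖)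
    (fun k => norm_mu_le Q _)
    (fun F => ((Q F).continuous.tendsto s).comp (hγ.comp hφ.tendsto_atTop))
    (fun k => J (f k)) hJ (fun k => by
      refine (J.le_opNorm _).trans ?_
      refine mul_le_of_le_one_right (norm_nonneg _) ?_
      exact hW.norm_le k) (fun k => by
      rw [mu_apply, hQJ', hfγ]) h0 hε
  exact ⟨φ k, hk⟩

theorem chain (hK : ¬ CZeroComplementedIn K) (hX : ¬ CZeroEmbedsIn X)
    (J : C(S, ℝ) →L[ℝ] C(K, X)) (Q : C(K, X) →L[ℝ] C(S, ℝ))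
    (hQJ : Q.comp J = ContinuousLinearMap.id ℝ _) {ε : ℝ} (hε : 0 < ε) (n : ℕ) :
    ∀ s ∈ seqDer S n, ∃ t : S, ‖mu Q s‖ + n * (1 / ‖J‖ - ε) ≤ ‖mu Q t‖ := by
  induction n with
  | zero =>
    intro s _
    exact ⟨s, by simp⟩
  | succ n ih =>
    rintro s ⟨γ, hγ, hlim⟩
    obtain ⟨k, hk⟩ := step hK hX J Q hQJ γ s (fun k => (hγ k).2) hlim hε
    obtain ⟨t, ht⟩ := ih (γ k) (hγ k).1
    refine ⟨t, ?_⟩
    push_cast
    linarith

theorem height_bound (hK : ¬ CZeroComplementedIn K) (hX : ¬ CZeroEmbedsIn X)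
    (J : C(S, ℝ) →L[ℝ] C(K, X)) (Q : C(K, X) →L[ℝ] C(S, ℝ))
    (hQJ : Q.comp J = ContinuousLinearMap.id ℝ _) (n : ℕ) (hn : (seqDer S n).Nonempty) :
    (n : ℝ) + 1 ≤ ‖Q‖ * ‖J‖ := by
  obtain ⟨s, hs⟩ := hn
  have hQJ' : ∀ f, Q (J f) = f := fun f => by
    have := congrArg (fun T => T f) hQJ
    simpa using this
  have hJ0 : J ≠ 0 := by
    rintro rfl
    have h2 := congrArg (fun f : C(S, ℝ) => f s) (hQJ' 1)
    simp at h2
  have hJ : 0 < ‖J‖ := (norm_pos_iff (a := J)).2 hJ0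
  have h1 : 1 / ‖J‖ ≤ ‖mu Q s‖ := by
    rw [div_le_iff₀ hJ]
    have h2 : mu Q s (J 1) = 1 := by rw [mu_apply, hQJ']; rfl
    have h3 := (mu Q s).le_opNorm (J 1)
    rw [h2, norm_one] at h3
    refine h3.trans ?_
    gcongr
    refine (J.le_opNorm _).trans ?_
    refine mul_le_of_le_one_right (norm_nonneg _) ?_
    exact (ContinuousMap.norm_le _ zero_le_one).2 fun t => by simp
  have h2 : ∀ ε : ℝ, 0 < ε → ((n : ℝ) + 1) * (1 / ‖J‖) - n * ε ≤ ‖Q‖ := by
    intro ε hε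
    obtain ⟨t, ht⟩ := chain hK hX J Q hQJ hε n s hs
    have h3 := norm_mu_le Q t
    nlinarith
  have h3 : ((n : ℝ) + 1) * (1 / ‖J‖) ≤ ‖Q‖ := by
    refine le_of_forall_pos_le_add fun δ hδ => ?_
    have h4 := h2 (δ / (n + 1)) (by positivity)
    have h5 : (n : ℝ) * (δ / (n + 1)) ≤ δ := by
      rw [mul_div_assoc', div_le_iff₀ (by positivity)]
      nlinarith [(Nat.cast_nonneg n : (0 : ℝ) ≤ n)]
    linarith
  rw [mul_one_div, div_le_iff₀ hJ] at h3
  exact h3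

end Step

end Pool.Agent.H32OO
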