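import Pool.Agent.H32OO.Scattered

set_option autoImplicit false

open Filter Topology

universe u v

namespace Pool.Agent.H32OO

section Disc

variable {I : Type u} [TopologicalSpace I] [DiscreteTopology I]

/-- the element of `C₀(I)`, `I` discrete, given by a function with limit zero -/
def mkD (u : I → ℝ) (hu : Tendsto u cofinite (𝓝 0)) : ZeroAtInftyContinuousMap I ℝ where
  toFun := u
  continuous_toFun := continuous_of_discreteTopology
  zero_at_infty' := by rwa [cocompact_eq_cofinite]

@[simp] theorem mkD_apply (u : I → ℝ) (hu : Tendsto u cofinite (𝓝 0)) (i : I) :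
    mkD u hu i = u i := rfl

theorem tendstoD (f : ZeroAtInftyContinuousMap I ℝ) : Tendsto f cofinite (𝓝 0) := by
  have := f.zero_at_infty'
  rwa [cocompact_eq_cofinite] at this

omit [TopologicalSpace I] [DiscreteTopology I] in
theorem tendsto_cofinite_iff (u : I → ℝ) :
    Tendsto u cofinite (𝓝 0) ↔ ∀ ε > 0, {i | ε ≤ |u i|}.Finite := by
  rw [Metric.tendsto_nhds]
  refine forall_congr' fun ε => forall_congr' fun _ => ?_
  rw [Filter.eventually_cofinite]
  simp only [dist_zero_right, Real.norm_eq_abs, not_lt]

omit [DiscreteTopology I] in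
theorem normD_apply_le (f : ZeroAtInftyContinuousMap I ℝ) (n : I) : |f n| ≤ ‖f‖ :=
  f.toBCF.norm_coe_le_norm n

omit [DiscreteTopology I] in
theorem normD_le (f : ZeroAtInftyContinuousMap I ℝ) {C : ℝ} (hC : 0 ≤ C) (h : ∀ n, |f n| ≤ C) :
    ‖f‖ ≤ C :=
  (f.toBCF.norm_le hC).2 h

/-- spaces `C₀(I)`, `I` discrete, depend on the cardinality of `I` only -/
theorem nonempty_equiv {J : Type v} [TopologicalSpace J] [DiscreteTopology J] (e : I ≃ J) :
    Nonempty (ZeroAtInftyContinuousMap I ℝ ≃L[ℝ] ZeroAtInftyContinuousMap J ℝ) := by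
  let T : ZeroAtInftyContinuousMap I ℝ →L[ℝ] ZeroAtInftyContinuousMap J ℝ :=
    LinearMap.mkContinuous
      { toFun := fun f => mkD (fun j => f (e.symm j))
          ((tendstoD f).comp e.symm.injective.tendsto_cofinite)
        map_add' := fun f g => rfl
        map_smul' := fun c f => rfl } 1 (by
      intro f
      rw [one_mul]
      exact normD_le _ (norm_nonneg _) fun j => normD_apply_le f _)
  let T' : ZeroAtInftyContinuousMap J ℝ →L[ℝ] ZeroAtInftyContinuousMap I ℝ :=
    LinearMap.mkContinuous
      { toFun := fun f => mkD (fun i => f (e i))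
          ((tendstoD f).comp e.injective.tendsto_cofinite)
        map_add' := fun f g => rfl
        map_smul' := fun c f => rfl } 1 (by
      intro f
      rw [one_mul]
      exact normD_le _ (norm_nonneg _) fun j => normD_apply_le f _)
  refine ⟨ContinuousLinearEquiv.equivOfInverse T T' (fun f => ?_) (fun f => ?_)⟩
  · refine DFunLike.ext _ _ fun i => ?_
    show f (e.symm (e i)) = f i
    rw [e.symm_apply_apply]
  · refine DFunLike.ext _ _ fun j => ?_
    show f (e (e.symm j)) = f j
    rw [e.apply_symm_apply]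

end Disc

section Metric

variable {S : Type u} [MetricSpace S] [CompactSpace S]

theorem nhds_isolated (s : S) (hs : s ∉ seqDer S 1) : 𝓝 s = pure s := by
  have h1 : ¬ ∀ ε > 0, ∃ t, t ≠ s ∧ dist t s < ε := fun h => hs ((mem_seqDer_one s).2 h)
  push Not at h1
  obtain ⟨ε, hε, h2⟩ := h1
  refine le_antisymm ?_ (pure_le_nhds s)
  rw [Filter.le_pure_iff]
  refine Filter.mem_of_superset (Metric.ball_mem_nhds s hε) fun t ht => ?_
  by_contra hne
  exact absurd (Metric.mem_ball.1 ht) (not_lt.2 (h2 t hne))

/-- there is a bounded extension operator from the derived set -/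
theorem exists_extension : ∃ E : C((seqDer S 1 : Set S), ℝ) →L[ℝ] C(S, ℝ),
    ∀ h (d : (seqDer S 1 : Set S)), E h d = h d := by
  rcases (seqDer S 1).eq_empty_or_nonempty with h0 | h0
  · refine ⟨0, fun h d => ?_⟩
    exact (Set.eq_empty_iff_forall_notMem.1 h0 d.1 d.2).elim
  · have hc : IsCompact (seqDer S 1) := isClosed_seqDer_one.isCompact
    haveI : CompactSpace (seqDer S 1 : Set S) := isCompact_iff_compactSpace.1 hc
    choose r hr1 hr2 using fun s : S => hc.exists_infDist_eq_dist h0 s
    have hrd : ∀ s ∈ seqDer S 1, r s = s := by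
      intro s hs
      have h1 := hr2 s
      rw [Metric.infDist_zero_of_mem hs] at h1
      exact (dist_eq_zero.1 h1.symm).symm
    have hr3 : ∀ s, ∀ d ∈ seqDer S 1, dist s (r s) ≤ dist s d := by
      intro s d hd
      rw [← hr2 s]
      exact Metric.infDist_le_dist_of_mem hd
    let ρ : S → (seqDer S 1 : Set S) := fun s => ⟨r s, hr1 s⟩
    have hρ : Continuous ρ := by
      rw [continuous_induced_rng]
      show Continuous r
      rw [continuous_iff_continuousAt]
      intro s
      by_cases hs : s ∈ seqDer S 1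
      · rw [ContinuousAt, hrd s hs, tendsto_iff_dist_tendsto_zero]
        have h1 : ∀ t, dist (r t) s ≤ 2 * dist t s := by
          intro t
          have h2 := dist_triangle (r t) t s
          have h3 := hr3 t s hs
          rw [dist_comm (r t) t] at h2
          linarith
        refine squeeze_zero (fun t => dist_nonneg) h1 ?_
        have h4 : Tendsto (fun t => dist t s) (𝓝 s) (𝓝 0) :=
          tendsto_iff_dist_tendsto_zero.1 tendsto_id
        have h5 := h4.const_mul 2
        rwa [mul_zero] at h5
      · rw [ContinuousAt, nhds_isolated s hs]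
        exact tendsto_pure_nhds r s
    let E₀ : C((seqDer S 1 : Set S), ℝ) →ₗ[ℝ] C(S, ℝ) :=
      { toFun := fun h => h.comp ⟨ρ, hρ⟩
        map_add' := fun f g => rfl
        map_smul' := fun c f => rfl }
    have hE₀ : ∀ h, ‖E₀ h‖ ≤ 1 * ‖h‖ := by
      intro h
      rw [one_mul]
      exact (ContinuousMap.norm_le _ (norm_nonneg _)).2 fun t => h.norm_coe_le_norm _
    refine ⟨E₀.mkContinuous 1 hE₀, fun h d => ?_⟩
    · show h (ρ d) = h d
      congr 1
      exact Subtype.ext (hrd d d.2)

/-- the extension by zero of a function on the isolated points -/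
theorem exists_zero_extension (g : ZeroAtInftyContinuousMap ((seqDer S 1)ᶜ : Set S) ℝ) :
    ∃ f : C(S, ℝ), (∀ s ∈ seqDer S 1, f s = 0) ∧ ∀ s : ((seqDer S 1)ᶜ : Set S), f s = g s := by
  classical
  let F : S → ℝ := fun s => if hs : s ∈ seqDer S 1 then 0 else g ⟨s, hs⟩
  have hF0 : ∀ s ∈ seqDer S 1, F s = 0 := fun s hs => dif_pos hs
  have hF1 : ∀ s (hs : s ∉ seqDer S 1), F s = g ⟨s, hs⟩ := fun s hs => dif_neg hs
  have hF : Continuous F := by
    rw [continuous_iff_continuousAt]
    intro s
    by_cases hs : s ∈ seqDer S 1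
    · rw [ContinuousAt, hF0 s hs, Metric.tendsto_nhds]
      intro ε hε
      have h1 := (tendsto_cofinite_iff _).1 (tendstoD g) ε hε
      have h2 := (h1.image Subtype.val).isClosed
      have h3 : s ∉ Subtype.val '' {i | ε ≤ |g i|} := by
        rintro ⟨i, -, rfl⟩
        exact i.2 hs
      filter_upwards [h2.isOpen_compl.mem_nhds h3] with t ht
      rw [dist_zero_right, Real.norm_eq_abs]
      by_cases ht' : t ∈ seqDer S 1
      · rw [hF0 t ht', abs_zero]; exact hε
      · rw [hF1 t ht']
        by_contra hcon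
        exact ht ⟨⟨t, ht'⟩, not_lt.1 hcon, rfl⟩
    · rw [ContinuousAt, nhds_isolated s hs]
      exact tendsto_pure_nhds F s
  exact ⟨⟨F, hF⟩, hF0, fun s => hF1 s.1 s.2⟩

/-- a function on `S` which vanishes on the derived set tends to zero on the isolated points -/
theorem tendsto_of_vanish (f : C(S, ℝ)) (hf : ∀ s ∈ seqDer S 1, f s = 0) :
    Tendsto (fun s : ((seqDer S 1)ᶜ : Set S) => f s) cofinite (𝓝 0) := by
  rw [tendsto_cofinite_iff]
  intro ε hε
  show {i : ((seqDer S 1)ᶜ : Set S) | ε ≤ |f i|}.Finite
  have h1 : {s : S | ε ≤ |f s|}.Finite := by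
    refine finite_of_isClosed _ (isClosed_le continuous_const (by fun_prop)) fun s hs => ?_
    intro hs'
    have h2 : ε ≤ |f s| := hs
    rw [hf s hs', abs_zero] at h2
    linarith
  have h2 : ((Subtype.val : ((seqDer S 1)ᶜ : Set S) → S) ⁻¹' {s : S | ε ≤ |f s|}).Finite :=
    h1.preimage Subtype.val_injective.injOn
  exact h2

end Metric

/-- compact metric spaces of finite height are countable, and `C(S)` is isomorphic to `C₀(I)` with
`I` discrete of the same cardinality -/
theorem finite_height (n : ℕ) : ∀ (S : Type u) [MetricSpace S] [CompactSpace S],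
    seqDer S n = ∅ → Countable S ∧ ∃ (I : Type u) (_ : TopologicalSpace I)
      (_ : DiscreteTopology I) (_ : I ≃ S),
      Nonempty (C(S, ℝ) ≃L[ℝ] ZeroAtInftyContinuousMap I ℝ) := by
  induction n with
  | zero =>
    intro S _ _ h
    have hS : IsEmpty S := Set.univ_eq_empty_iff.1 h
    refine ⟨inferInstance, PEmpty, ⊥, ⟨rfl⟩, Equiv.equivOfIsEmpty _ _, ?_⟩
    letI : TopologicalSpace PEmpty.{u + 1} := ⊥
    haveI : DiscreteTopology PEmpty.{u + 1} := ⟨rfl⟩
    exact ⟨ContinuousLinearEquiv.equivOfInverse 0 0
      (fun f => ContinuousMap.ext fun s => (hS.false s).elim)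
      (fun f => DFunLike.ext _ _ fun s => s.elim)⟩
  | succ n ih =>
    intro S _ _ h
    haveI : CompactSpace (seqDer S 1 : Set S) :=
      isCompact_iff_compactSpace.1 isClosed_seqDer_one.isCompact
    obtain ⟨hD, I, _, _, e, ⟨A⟩⟩ := ih (seqDer S 1 : Set S) (by
      rw [Set.eq_empty_iff_forall_notMem]
      intro t ht
      have h1 := seqDer_subtype n t ht
      rw [h] at h1
      exact h1)
    obtain ⟨E, hE⟩ := exists_extension (S := S)
    have hI : Countable ((seqDer S 1)ᶜ : Set S) := countable_of_Lindelof_of_discrete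
    have hS : Countable S := by
      have h1 : (Set.univ : Set S).Countable := by
        rw [← Set.union_compl_self (seqDer S 1)]
        exact (Set.countable_coe_iff.1 hD).union (Set.countable_coe_iff.1 hI)
      exact Set.countable_univ_iff.1 h1
    classical
    refine ⟨hS, I ⊕ ((seqDer S 1)ᶜ : Set S), inferInstance, inferInstance,
      (Equiv.sumCongr e (Equiv.refl _)).trans (Equiv.Set.sumCompl (seqDer S 1)), ?_⟩
    -- restriction
    let R : C(S, ℝ) →L[ℝ] C((seqDer S 1 : Set S), ℝ) := LinearMap.mkContinuous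
      { toFun := fun f => f.restrict (seqDer S 1)
        map_add' := fun f g => rfl
        map_smul' := fun c f => rfl } 1 (fun f => by
      rw [one_mul]
      exact (ContinuousMap.norm_le _ (norm_nonneg _)).2 fun t => f.norm_coe_le_norm _)
    have hR : ∀ f (d : (seqDer S 1 : Set S)), R f d = f d := fun f d => rfl
    let B : C(S, ℝ) →L[ℝ] C(S, ℝ) := ContinuousLinearMap.id ℝ _ - E.comp R
    have hB : ∀ f s, B f s = f s - E (R f) s := fun f s => rfl
    have hB0 : ∀ f, ∀ s ∈ seqDer S 1, B f s = 0 := by
      intro f s hs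
      rw [hB, hE (R f) ⟨s, hs⟩, hR, sub_self]
    have hT0 : ∀ f : C(S, ℝ), Tendsto (Sum.elim (fun i => A (R f) i)
        (fun s : ((seqDer S 1)ᶜ : Set S) => B f s)) cofinite (𝓝 0) := by
      intro f
      rw [tendsto_cofinite_iff]
      intro ε hε
      have h1 := ((tendsto_cofinite_iff _).1 (tendstoD (A (R f))) ε hε).image
        (Sum.inl (β := ((seqDer S 1)ᶜ : Set S)))
      have h2 := ((tendsto_cofinite_iff _).1 (tendsto_of_vanish (B f) (hB0 f)) ε hε).image
        (Sum.inr (α := I))
      refine (h1.union h2).subset ?_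
      rintro (i | s) hi
      · exact Or.inl ⟨i, hi, rfl⟩
      · exact Or.inr ⟨s, hi, rfl⟩
    let A' : C((seqDer S 1 : Set S), ℝ) →L[ℝ] ZeroAtInftyContinuousMap I ℝ := A
    have hA' : ∀ h, A' h = A h := fun h => rfl
    let T : C(S, ℝ) →L[ℝ] ZeroAtInftyContinuousMap (I ⊕ ((seqDer S 1)ᶜ : Set S)) ℝ :=
      LinearMap.mkContinuous
        { toFun := fun f => mkD _ (hT0 f)
          map_add' := fun f g => by
            refine DFunLike.ext _ _ ?_
            rintro (i | s)
            · show A (R (f + g)) i = A (R f) i + A (R g) i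
              rw [map_add, map_add]; rfl
            · show B (f + g) s = B f s + B g s
              rw [map_add]; rfl
          map_smul' := fun c f => by
            refine DFunLike.ext _ _ ?_
            rintro (i | s)
            · show A (R (c • f)) i = c * A (R f) i
              rw [map_smul, map_smul]; rfl
            · show B (c • f) s = c * B f s
              rw [map_smul]; rfl } (‖A'‖ * ‖R‖ + ‖B‖) (by
        intro f
        have hAR := mul_nonneg (mul_nonneg (norm_nonneg A') (norm_nonneg R)) (norm_nonneg f)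
        have hBf := mul_nonneg (norm_nonneg B) (norm_nonneg f)
        refine normD_le _ (by rw [add_mul]; exact add_nonneg hAR hBf) ?_
        rintro (i | s)
        · show |A (R f) i| ≤ _
          refine (normD_apply_le (A (R f)) i).trans ?_
          have h1 : ‖A (R f)‖ ≤ ‖A'‖ * ‖R f‖ := A'.le_opNorm (R f)
          have h2 : ‖R f‖ ≤ ‖R‖ * ‖f‖ := R.le_opNorm f
          have h3 : ‖A'‖ * ‖R f‖ ≤ ‖A'‖ * (‖R‖ * ‖f‖) :=
            mul_le_mul_of_nonneg_left h2 (norm_nonneg A')
          rw [add_mul, mul_assoc]
          linarith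
        · show |B f s| ≤ _
          have h0 : |B f s| ≤ ‖B f‖ := (B f).norm_coe_le_norm s
          have h1 : ‖B f‖ ≤ ‖B‖ * ‖f‖ := B.le_opNorm f
          rw [add_mul]
          linarith)
    have hTl : ∀ f i, T f (Sum.inl i) = A (R f) i := fun f i => rfl
    have hTr : ∀ f s, T f (Sum.inr s) = B f s := fun f s => rfl
    have hinj : Function.Injective T := by
      rw [injective_iff_map_eq_zero]
      intro f hf
      have h1 : A (R f) = 0 := by
        refine DFunLike.ext _ _ fun i => ?_
        rw [← hTl, hf]; rfl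
      have h2 : R f = 0 := by simpa using h1
      ext s
      by_cases hs : s ∈ seqDer S 1
      · exact congrArg (fun F : C((seqDer S 1 : Set S), ℝ) => F ⟨s, hs⟩) h2
      · have h3 := hTr f ⟨s, hs⟩
        rw [hf, hB, h2, map_zero] at h3
        have h4 : (0 : ℝ) = f s - 0 := h3
        show f s = 0
        linarith
    have hsurj : Function.Surjective T := by
      intro g
      let gl : ZeroAtInftyContinuousMap I ℝ := mkD (fun i => g (Sum.inl i))
        ((tendstoD g).comp Sum.inl_injective.tendsto_cofinite)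
      let gr : ZeroAtInftyContinuousMap ((seqDer S 1)ᶜ : Set S) ℝ := mkD (fun i => g (Sum.inr i))
        ((tendstoD g).comp Sum.inr_injective.tendsto_cofinite)
      obtain ⟨F, hF0, hF1⟩ := exists_zero_extension gr
      have h1 : R (E (A.symm gl) + F) = A.symm gl := by
        ext d
        rw [hR]
        show E (A.symm gl) d + F d = _
        rw [hE, hF0 d d.2, add_zero]
      refine ⟨E (A.symm gl) + F, DFunLike.ext _ _ ?_⟩
      rintro (i | s)
      · rw [hTl, h1, A.apply_symm_apply]
        rfl
      · rw [hTr, hB, h1]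
        show E (A.symm gl) s + F s - E (A.symm gl) s = g (Sum.inr s)
        rw [hF1]
        show E (A.symm gl) s + g (Sum.inr s) - E (A.symm gl) s = g (Sum.inr s)
        ring
    exact ⟨ContinuousLinearEquiv.ofBijective T (LinearMap.ker_eq_bot.2 hinj)
      (LinearMap.range_eq_top.2 hsurj)⟩

/-- an infinite compact metrizable space `S` of finite height is countable, and `C(S)` is
isomorphic to `c₀` -/
theorem iso_c0 {S : Type u} [TopologicalSpace S] [CompactSpace S]
    [TopologicalSpace.MetrizableSpace S] [Infinite S] (n : ℕ) (h : seqDer S n = ∅) :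
    Countable S ∧ Nonempty (C(S, ℝ) ≃L[ℝ] c0) := by
  letI : MetricSpace S := TopologicalSpace.metrizableSpaceMetric S
  obtain ⟨hS, I, _, _, e, ⟨A⟩⟩ := finite_height n S h
  refine ⟨hS, ?_⟩
  haveI : Countable I := e.countable_iff.2 hS
  haveI : Infinite I := e.infinite_iff.2 inferInstance
  obtain ⟨e'⟩ := nonempty_equiv_of_countable (α := I) (β := ℕ)
  obtain ⟨A'⟩ := nonempty_equiv e'
  exact ⟨A.trans A'⟩

end Pool.Agent.H32OO
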