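import Pool.Agent.H32OO.Height

set_option autoImplicit false

open Filter Topology Ordinal

universe u

namespace Pool.Agent.H32OO

theorem tendsto_natCast_omega0 : Tendsto (fun k : ℕ => (k : Ordinal.{u})) atTop (𝓝 ω) := by
  refine tendsto_atTop_isLUB (fun a b h => by exact_mod_cast h) ⟨?_, ?_⟩
  · rintro _ ⟨k, rfl⟩
    exact (natCast_lt_omega0 k).le
  · intro b hb
    by_contra hcon
    push Not at hcon
    obtain ⟨n, rfl⟩ := lt_omega0.1 hcon
    have h2 : ((n + 1 : ℕ) : Ordinal.{u}) ≤ n := hb ⟨n + 1, rfl⟩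
    have h3 : n + 1 ≤ n := by exact_mod_cast h2
    omega

theorem opow_succ_nat (n : ℕ) :
    ω ^ ((n + 1 : ℕ) : Ordinal.{u}) = ω ^ (n : Ordinal.{u}) * ω := by
  push_cast
  rw [← Order.succ_eq_add_one, opow_succ]

theorem tendsto_aux (β : Ordinal.{u}) (n : ℕ) :
    Tendsto (fun k : ℕ => β + ω ^ (n : Ordinal.{u}) * ((k + 1 : ℕ) : Ordinal.{u})) atTop
      (𝓝 (β + ω ^ ((n + 1 : ℕ) : Ordinal.{u}))) := by
  rw [opow_succ_nat]
  have h2 := (tendsto_natCast_omega0.{u}).comp (tendsto_add_atTop_nat 1)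
  have h3 : Continuous fun x : Ordinal.{u} => β + ω ^ (n : Ordinal.{u}) * x :=
    (isNormal_add_right β).continuous.comp
      (isNormal_mul_right (opow_pos _ omega0_pos)).continuous
  exact (h3.tendsto ω).comp h2

theorem mem_seqDer (α : Ordinal.{u}) (n : ℕ) :
    ∀ (β : Ordinal.{u}) (h : β + ω ^ (n : Ordinal.{u}) ≤ α),
      (⟨β + ω ^ (n : Ordinal.{u}), ⟨zero_le, h⟩⟩ : Set.Icc (0 : Ordinal.{u}) α) ∈
        seqDer (Set.Icc (0 : Ordinal.{u}) α) n := by
  induction n with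
  | zero => intro β h; trivial
  | succ n ih =>
    intro β h
    have hlt : ∀ k : ℕ, β + ω ^ (n : Ordinal.{u}) * ((k : ℕ) : Ordinal.{u}) <
        β + ω ^ ((n + 1 : ℕ) : Ordinal.{u}) := by
      intro k
      rw [opow_succ_nat]
      exact (isNormal_add_right β).strictMono
        ((isNormal_mul_right (opow_pos _ omega0_pos)).strictMono (natCast_lt_omega0 k))
    refine ⟨fun k => ⟨β + ω ^ (n : Ordinal.{u}) * ((k + 1 : ℕ) : Ordinal.{u}),
      ⟨zero_le, (hlt _).le.trans h⟩⟩, fun k => ⟨?_, ?_⟩, ?_⟩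
    · have hbeta : β + ω ^ (n : Ordinal.{u}) * ((k + 1 : ℕ) : Ordinal.{u}) =
          (β + ω ^ (n : Ordinal.{u}) * (k : Ordinal.{u})) + ω ^ (n : Ordinal.{u}) := by
        push_cast
        rw [mul_add, mul_one, add_assoc]
      have h2 := ih (β + ω ^ (n : Ordinal.{u}) * (k : Ordinal.{u}))
        (by rw [← hbeta]; exact (hlt _).le.trans h)
      convert h2 using 2
    · intro h2
      exact (hlt (k + 1)).ne (congrArg Subtype.val h2)
    · rw [tendsto_subtype_rng]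
      exact tendsto_aux β n

theorem seqDer_nonempty (α : Ordinal.{u}) (n : ℕ) (h : ω ^ (n : Ordinal.{u}) ≤ α) :
    (seqDer (Set.Icc (0 : Ordinal.{u}) α) n).Nonempty :=
  ⟨_, mem_seqDer α n 0 (by rwa [zero_add])⟩

end Pool.Agent.H32OO
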