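import Pool.Agent.H32OO.Defs

set_option autoImplicit false

open Filter Topology

universe u

namespace Pool.Agent.H32OO

/-- the derived set relative to a subspace -/
theorem seqDer_subtype {S : Type u} [TopologicalSpace S] (n : ℕ) (t : (seqDer S 1 : Set S))
    (ht : t ∈ seqDer (seqDer S 1 : Set S) n) : (t : S) ∈ seqDer S (n + 1) := by
  induction n generalizing t with
  | zero => exact t.2
  | succ n ih =>
    obtain ⟨γ, hγ, hlim⟩ := ht
    refine ⟨fun k => (γ k : S), fun k => ⟨ih _ (hγ k).1, fun h => (hγ k).2 (Subtype.ext h)⟩, ?_⟩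
    exact (continuous_subtype_val.tendsto t).comp hlim

section Metric

variable {S : Type u} [MetricSpace S] [CompactSpace S]

theorem mem_seqDer_one (s : S) : s ∈ seqDer S 1 ↔ ∀ ε > 0, ∃ t, t ≠ s ∧ dist t s < ε := by
  constructor
  · rintro ⟨γ, hγ, hlim⟩ ε hε
    obtain ⟨k, hk⟩ := ((Metric.tendsto_nhds.1 hlim) ε hε).exists
    exact ⟨γ k, (hγ k).2, hk⟩
  · intro h
    choose γ hγ1 hγ2 using fun k : ℕ => h (1 / ((k : ℝ) + 1)) (by positivity)
    refine ⟨γ, fun k => ⟨trivial, hγ1 k⟩, ?_⟩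
    rw [tendsto_iff_dist_tendsto_zero]
    exact squeeze_zero (fun k => dist_nonneg) (fun k => (hγ2 k).le)
      tendsto_one_div_add_atTop_nhds_zero_nat

theorem isClosed_seqDer_one : IsClosed (seqDer S 1) := by
  refine isClosed_of_closure_subset fun s hs => ?_
  rw [mem_seqDer_one]
  intro ε hε
  obtain ⟨t, ht, hts⟩ := Metric.mem_closure_iff.1 hs (ε / 2) (by positivity)
  by_cases h : t = s
  · rw [h, mem_seqDer_one] at ht
    exact ht ε hε
  · exact ⟨t, h, by rw [dist_comm]; linarith⟩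

/-- the isolated points form a discrete space -/
instance : DiscreteTopology ((seqDer S 1)ᶜ : Set S) := by
  rw [discreteTopology_iff_isOpen_singleton]
  rintro ⟨s, hs⟩
  have h1 : ¬ ∀ ε > 0, ∃ t, t ≠ s ∧ dist t s < ε := fun h => hs ((mem_seqDer_one s).2 h)
  push Not at h1
  obtain ⟨ε, hε, h2⟩ := h1
  rw [Metric.isOpen_iff]
  rintro t ht
  rw [Set.mem_singleton_iff] at ht
  subst ht
  refine ⟨ε, hε, fun t ht => ?_⟩
  rw [Set.mem_singleton_iff]
  by_contra hne
  have h3 := h2 t (fun h => hne (Subtype.ext h))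
  exact absurd (Metric.mem_ball.1 ht) (not_lt.2 h3)

/-- a set of isolated points which is closed is finite -/
theorem finite_of_isClosed (A : Set S) (hA : IsClosed A) (hA' : A ⊆ (seqDer S 1)ᶜ) :
    A.Finite := by
  by_contra hinf
  obtain ⟨s, -, hs⟩ := Set.Infinite.exists_accPt_of_subset_isCompact hinf hA.isCompact subset_rfl
  have hsA : s ∈ A := by
    have := hs.clusterPt
    exact hA.closure_subset (mem_closure_iff_clusterPt.2 this)
  refine hA' hsA ((mem_seqDer_one s).2 fun ε hε => ?_)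
  rw [accPt_iff_frequently] at hs
  have h1 := hs.and_eventually (Metric.ball_mem_nhds s hε)
  obtain ⟨t, ⟨ht1, -⟩, ht2⟩ := h1.exists
  exact ⟨t, ht1, ht2⟩

end Metric

end Pool.Agent.H32OO
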